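import Mathlib

/-!
# Integrally closed powers of an ideal and the completion
-/

set_option autoImplicit false

namespace Pool.Agent.H195_normal

/-- all powers of the ideal `I` are integrally closed -/
def PowersClosed {R : Type} [CommRing R] (I : Ideal R) : Prop :=
  ∀ (n : ℕ) (r : R) (K : ℕ), 0 < K → ∀ a : ℕ → R, (∀ j, a j ∈ (I ^ n) ^ j) →
    r ^ K + ∑ j ∈ Finset.range K, a (K - j) * r ^ j = 0 → r ∈ I ^ n

lemma PowersClosed.mem_of_sq {R : Type} [CommRing R] {I : Ideal R} (hI : PowersClosed I)
    {n : ℕ} {r : R} (h : r ^ 2 ∈ I ^ (2 * n)) : r ∈ I ^ n := by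
  have hneg : -(r ^ 2) ∈ (I ^ n) ^ 2 := by
    rw [← pow_mul, mul_comm n 2]
    exact neg_mem h
  refine hI n r 2 two_pos (fun j => if j = 2 then -(r ^ 2) else 0) ?_ ?_
  · intro j
    by_cases hj : j = 2
    · subst hj
      simpa only [if_true] using hneg
    · rw [if_neg hj]
      exact zero_mem _
  · rw [Finset.sum_range_succ, Finset.sum_range_one]
    norm_num

lemma PowersClosed.isReduced {R : Type} [CommRing R] {I : Ideal R} (hI : PowersClosed I) :
    IsReduced (AdicCompletion I R) := by
  refine (isReduced_iff_pow_one_lt 2 one_lt_two).mpr fun x hx => ?_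
  obtain ⟨a, rfl⟩ := AdicCompletion.mk_surjective I R x
  refine AdicCompletion.ext_evalₐ (I := I) fun n => ?_
  have h2 : AdicCompletion.evalₐ I (2 * n) ((AdicCompletion.mk I R a) ^ 2) = 0 := by
    rw [hx, map_zero]
  rw [map_pow, AdicCompletion.evalₐ_mk, ← map_pow, Ideal.Quotient.eq_zero_iff_mem] at h2
  have h3 := hI.mem_of_sq h2
  rw [map_zero, AdicCompletion.evalₐ_mk, ← AdicCompletion.Ideal.mk_eq_mk I (by omega : n ≤ 2 * n) a,
    Ideal.Quotient.eq_zero_iff_mem]
  exact h3

/-- three elements generating the maximal ideal with `x z = y z = 0`: the dimension is at most two -/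
lemma ringKrullDim_le_two {R : Type} [CommRing R] [IsNoetherianRing R] [IsLocalRing R] {x y z : R}
    (hm : IsLocalRing.maximalIdeal R = Ideal.span {x, y, z}) (hxz : x * z = 0) :
    ringKrullDim R ≤ 2 := by
  classical
  rw [← IsLocalRing.maximalIdeal_height_eq_ringKrullDim]
  have hmin : IsLocalRing.maximalIdeal R ∈ (Ideal.span (({x + z, y} : Finset R) : Set R)).minimalPrimes := by
    have hxm : x ∈ IsLocalRing.maximalIdeal R := hm ▸ Ideal.subset_span (by simp)
    have hym : y ∈ IsLocalRing.maximalIdeal R := hm ▸ Ideal.subset_span (by simp)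
    have hzm : z ∈ IsLocalRing.maximalIdeal R := hm ▸ Ideal.subset_span (by simp)
    refine ⟨⟨inferInstance, ?_⟩, ?_⟩
    · rw [Ideal.span_le]
      intro w hw
      simp only [Finset.coe_insert, Finset.coe_singleton, Set.mem_insert_iff,
        Set.mem_singleton_iff] at hw
      rcases hw with rfl | rfl
      · exact add_mem hxm hzm
      · exact hym
    · rintro q ⟨hq, hle⟩ -
      have hxzq : x + z ∈ q := hle (Ideal.subset_span (by simp))
      have hyq : y ∈ q := hle (Ideal.subset_span (by simp))
      have h0 : x * z ∈ q := hxz ▸ q.zero_mem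
      have hxq : x ∈ q ∧ z ∈ q := by
        rcases hq.mem_or_mem h0 with h | h
        · exact ⟨h, (Ideal.add_mem_iff_right q h).mp hxzq⟩
        · exact ⟨(Ideal.add_mem_iff_left q h).mp hxzq, h⟩
      rw [hm, Ideal.span_le]
      rintro w (rfl | rfl | rfl)
      · exact hxq.1
      · exact hyq
      · exact hxq.2
  have h := Ideal.height_le_card_of_mem_minimalPrimes_span_finset hmin
  have hc : (({x + z, y} : Finset R).card : ℕ∞) ≤ 2 := by
    exact_mod_cast Finset.card_le_two
  have h' := h.trans hc
  exact WithBot.coe_le_coe.mpr h'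

/-- a chain of two strict inclusions of primes -/
lemma two_le_ringKrullDim {R : Type} [CommRing R] {p q r : PrimeSpectrum R} (h1 : p < q)
    (h2 : q < r) : 2 ≤ ringKrullDim R := by
  have e1 : Order.height p + 1 ≤ Order.height q := Order.height_add_one_le h1
  have e2 : Order.height q + 1 ≤ Order.height r := Order.height_add_one_le h2
  have e3 : (2 : ℕ∞) ≤ Order.height r := by
    refine le_trans ?_ e2
    have : (2 : ℕ∞) = 0 + 1 + 1 := by norm_num
    rw [this]
    gcongr
    exact le_trans (by gcongr; exact zero_le) e1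
  exact le_trans (WithBot.coe_le_coe.mpr e3) (Order.height_le_krullDim r)

/-- the length over a local algebra with the same residue field -/
lemma length_eq {k R : Type} [Field k] [CommRing R] [IsLocalRing R] [Algebra k R]
    (h1 : Module.length k (IsLocalRing.ResidueField R) = 1)
    (M : Type) [AddCommGroup M] [Module k M] [Module R M] [IsScalarTower k R M] :
    Module.length R M = Module.length k M := by
  have h := IsLocalRing.length_restrictScalars k R M
  have h' := IsLocalRing.length_restrictScalars k R (IsLocalRing.ResidueField R)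
  have h3 : Module.length R (IsLocalRing.ResidueField R) = 1 := by
    rw [Module.length_eq_one_iff]
    exact (isSimpleModule_iff_quot_maximal).mpr
      ⟨IsLocalRing.maximalIdeal R, inferInstance, ⟨LinearEquiv.refl _ _⟩⟩
  rw [h3, one_mul, h1] at h'
  rw [h, ← h', mul_one]

end Pool.Agent.H195_normal
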