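import Mathlib
import Pool.Agent.H195_normal.General

/-!
# The local ring of a plane and a line meeting at a point

`A = k[x,y,z]/(xz, yz)`, `R` its localization at the origin. We show that the powers of the maximal
ideal of `R` are integrally closed, that the completion of `R` is reduced, that `R` has dimension two
and that the length of `R / m ^ (n + 1)` is `(n + 1)(n + 2) / 2 + n`.
-/

set_option autoImplicit false

namespace Pool.Agent.H195_normal

open MvPolynomial

variable (k : Type) [Field k]

/-- the exponents of `x z` and `y z` -/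
def expJ : Set (Fin 3 →₀ ℕ) :=
  {Finsupp.single 0 1 + Finsupp.single 2 1, Finsupp.single 1 1 + Finsupp.single 2 1}

/-- the ideal `(x z, y z)` -/
noncomputable def J : Ideal (MvPolynomial (Fin 3) k) :=
  Ideal.span ((fun s => monomial s (1 : k)) '' expJ)

/-- the coordinate ring of the union of a plane and a line -/
abbrev A : Type := MvPolynomial (Fin 3) k ⧸ J k

/-- exponents of the monomials of degree below `n` outside `J` -/
def T (n : ℕ) : Set (Fin 3 →₀ ℕ) :=
  {x | x.degree < n ∧ (x 2 = 0 ∨ (x 0 = 0 ∧ x 1 = 0))}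

lemma mem_J_iff (f : MvPolynomial (Fin 3) k) :
    f ∈ J k ↔ ∀ x ∈ f.support, x 2 ≠ 0 ∧ (x 0 ≠ 0 ∨ x 1 ≠ 0) := by
  rw [J, mem_ideal_span_monomial_image]
  refine forall₂_congr fun x _ => ?_
  constructor
  · rintro ⟨s, hs, hle⟩
    rcases hs with rfl | rfl
    · have h0 := hle 0
      have h2 := hle 2
      simp at h0 h2
      exact ⟨by omega, Or.inl (by omega)⟩
    · have h1 := hle 1
      have h2 := hle 2
      simp at h1 h2
      exact ⟨by omega, Or.inr (by omega)⟩
  · rintro ⟨h2, h0 | h1⟩
    · refine ⟨_, Or.inl rfl, ?_⟩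
      intro i
      fin_cases i <;> simp <;> omega
    · refine ⟨_, Or.inr rfl, ?_⟩
      intro i
      fin_cases i <;> simp <;> omega

lemma mem_sup_iff (n : ℕ) (f : MvPolynomial (Fin 3) k) :
    f ∈ idealOfVars (Fin 3) k ^ n ⊔ J k ↔ ∀ x ∈ T n, f.coeff x = 0 := by
  classical
  constructor
  · intro hf x hx
    obtain ⟨g, hg, h, hh, rfl⟩ := Submodule.mem_sup.mp hf
    rw [coeff_add, (mem_pow_idealOfVars_iff' n g).mp hg x hx.1, zero_add]
    by_contra hne
    have := (mem_J_iff k h).mp hh x (mem_support_iff.mpr hne)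
    rcases hx.2 with h2 | ⟨h0, h1⟩
    · exact this.1 h2
    · rcases this.2 with h | h
      · exact h h0
      · exact h h1
  · intro hf
    rw [f.as_sum]
    refine Submodule.sum_mem _ fun x hx => ?_
    have hxT : x ∉ T n := fun h => (mem_support_iff.mp hx) (hf x h)
    by_cases hd : x.degree < n
    · refine Submodule.mem_sup_right ?_
      rw [mem_J_iff]
      intro y hy
      have hyx : y = x := by
        have := support_monomial_subset hy
        simpa using this
      subst hyx
      have : ¬ (y 2 = 0 ∨ (y 0 = 0 ∧ y 1 = 0)) := fun h => hxT ⟨hd, h⟩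
      tauto
    · refine Submodule.mem_sup_left ?_
      rw [monomial_mem_pow_idealOfVars_iff n x (mem_support_iff.mp hx)]
      omega

/-- the ideal of the origin -/
noncomputable def M : Ideal (A k) := (idealOfVars (Fin 3) k).map (Ideal.Quotient.mk (J k))

lemma mk_mem_M_pow_iff (n : ℕ) (f : MvPolynomial (Fin 3) k) :
    Ideal.Quotient.mk (J k) f ∈ M k ^ n ↔ ∀ x ∈ T n, f.coeff x = 0 := by
  rw [M, ← Ideal.map_pow, ← Ideal.mem_comap,
    Ideal.comap_map_of_surjective _ Ideal.Quotient.mk_surjective, ← mem_sup_iff k n f]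
  have : Ideal.comap (Ideal.Quotient.mk (J k)) ⊥ = J k := by
    rw [← RingHom.ker_eq_comap_bot, Ideal.mk_ker]
  rw [this]

lemma zero_mem_T {n : ℕ} (hn : 0 < n) : (0 : Fin 3 →₀ ℕ) ∈ T n := by
  refine ⟨by simpa using hn, Or.inl rfl⟩

lemma mk_mem_M_iff (f : MvPolynomial (Fin 3) k) :
    Ideal.Quotient.mk (J k) f ∈ M k ↔ f.coeff 0 = 0 := by
  have h := mk_mem_M_pow_iff k 1 f
  have h1 : M k ^ 1 = M k := pow_one _
  rw [h1] at h
  rw [h]
  constructor
  · intro h; exact h 0 (zero_mem_T one_pos)
  · intro h x hx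
    have : x = 0 := by
      have := hx.1
      have h0 : x.degree = 0 := by omega
      exact (Finsupp.degree_eq_zero_iff x).mp h0
    rw [this]; exact h

instance M_isMaximal : (M k).IsMaximal := by
  -- kernel of the constant coefficient
  have hJ : ∀ f ∈ J k, (constantCoeff : MvPolynomial (Fin 3) k →+* k) f = 0 := by
    intro f hf
    by_contra hne
    have h0 : (0 : Fin 3 →₀ ℕ) ∈ f.support := mem_support_iff.mpr hne
    exact ((mem_J_iff k f).mp hf 0 h0).1 rfl
  let φ : A k →+* k := Ideal.Quotient.lift (J k) constantCoeff hJ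
  have hφ : Function.Surjective φ := fun c => ⟨Ideal.Quotient.mk _ (C c), by simp [φ]⟩
  have hk : M k = RingHom.ker φ := by
    ext a
    obtain ⟨f, rfl⟩ := Ideal.Quotient.mk_surjective a
    rw [mk_mem_M_iff, RingHom.mem_ker]
    simp [φ, constantCoeff_eq]
  rw [hk]
  exact RingHom.ker_isMaximal_of_surjective φ hφ

/-- the local ring of the union of a plane and a line at the common point -/
def R : Type := Localization.AtPrime (M k)

noncomputable instance : CommRing (R k) := inferInstanceAs (CommRing (Localization.AtPrime (M k)))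
noncomputable instance : Algebra (A k) (R k) :=
  inferInstanceAs (Algebra (A k) (Localization.AtPrime (M k)))
instance : IsLocalization.AtPrime (R k) (M k) :=
  inferInstanceAs (IsLocalization.AtPrime (Localization.AtPrime (M k)) (M k))
instance : IsLocalRing (R k) := IsLocalization.AtPrime.isLocalRing (R k) (M k)
instance : IsNoetherianRing (R k) := IsLocalization.isNoetherianRing (M k).primeCompl (R k) inferInstance
noncomputable instance : Algebra k (R k) :=
  ((algebraMap (A k) (R k)).comp (algebraMap k (A k))).toAlgebra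
instance : IsScalarTower k (A k) (R k) :=
  IsScalarTower.of_algebraMap_eq (R := k) (S := A k) (A := R k) fun _ => rfl

/-! ### Restriction to coordinate subspaces -/

/-- restriction to the coordinate subspace of the variables in `B` -/
noncomputable def res (B : Finset (Fin 3)) : MvPolynomial (Fin 3) k →ₐ[k] MvPolynomial (Fin 3) k :=
  aeval (fun i => if i ∈ B then X i else 0)

lemma coeff_res (B : Finset (Fin 3)) (f : MvPolynomial (Fin 3) k) (x : Fin 3 →₀ ℕ) :
    (res k B f).coeff x = if (∀ i, i ∉ B → x i = 0) then f.coeff x else 0 := by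
  classical
  induction f using MvPolynomial.induction_on' with
  | monomial u a =>
    have h : res k B (monomial u a) =
        if (∀ i, i ∉ B → u i = 0) then monomial u a else 0 := by
      rw [res, aeval_monomial]
      split_ifs with hu
      · rw [monomial_eq]
        congr 1
        refine Finsupp.prod_congr fun i hi => ?_
        have : i ∈ B := by
          by_contra hiB
          exact (Finsupp.mem_support_iff.mp hi) (hu i hiB)
        rw [if_pos this]
      · push Not at hu
        obtain ⟨i, hiB, hui⟩ := hu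
        rw [Finsupp.prod, Finset.prod_eq_zero (Finsupp.mem_support_iff.mpr hui), mul_zero]
        rw [if_neg hiB, zero_pow hui]
    rw [h]
    by_cases hux : u = x
    · subst hux
      split_ifs <;> simp
    · split_ifs <;> simp [coeff_monomial, hux]
  | add p q hp hq =>
    rw [map_add, coeff_add, hp, hq, coeff_add]
    split_ifs <;> simp

/-- restriction to a coordinate subspace, with values in power series -/
noncomputable def resP (B : Finset (Fin 3)) :
    MvPolynomial (Fin 3) k →+* MvPowerSeries (Fin 3) k :=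
  coeToMvPowerSeries.ringHom.comp (res k B).toRingHom

lemma coeff_resP (B : Finset (Fin 3)) (f : MvPolynomial (Fin 3) k) (x : Fin 3 →₀ ℕ) :
    MvPowerSeries.coeff x (resP k B f) = if (∀ i, i ∉ B → x i = 0) then f.coeff x else 0 := by
  rw [← coeff_res]
  simp [resP]

/-- `B` is one of the two components, or a subspace of one -/
def Good (B : Finset (Fin 3)) : Prop := 2 ∉ B ∨ (0 ∉ B ∧ 1 ∉ B)

lemma resP_J {B : Finset (Fin 3)} (hB : Good B) (f : MvPolynomial (Fin 3) k) (hf : f ∈ J k) :
    resP k B f = 0 := by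
  ext x
  rw [coeff_resP, map_zero]
  split_ifs with hx
  · by_contra hne
    obtain ⟨h2, h01⟩ := (mem_J_iff k f).mp hf x (mem_support_iff.mpr hne)
    rcases hB with h | ⟨h0, h1⟩
    · exact h2 (hx 2 h)
    · rcases h01 with h | h
      · exact h (hx 0 h0)
      · exact h (hx 1 h1)
  · rfl

/-- restriction of functions on the plane and line -/
noncomputable def resA {B : Finset (Fin 3)} (hB : Good B) : A k →+* MvPowerSeries (Fin 3) k :=
  Ideal.Quotient.lift (J k) (resP k B) (resP_J k hB)

lemma resA_mk {B : Finset (Fin 3)} (hB : Good B) (f : MvPolynomial (Fin 3) k) :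
    resA k hB (Ideal.Quotient.mk (J k) f) = resP k B f := by
  simp [resA]

lemma isUnit_resA {B : Finset (Fin 3)} (hB : Good B) (s : (M k).primeCompl) :
    IsUnit (resA k hB s) := by
  obtain ⟨f, hf⟩ := Ideal.Quotient.mk_surjective (s : A k)
  have hs : (s : A k) ∉ M k := s.2
  rw [← hf, mk_mem_M_iff] at hs
  rw [← hf, resA_mk, MvPowerSeries.isUnit_iff_constantCoeff,
    ← MvPowerSeries.coeff_zero_eq_constantCoeff_apply, coeff_resP]
  simpa using hs

/-- restriction of germs -/
noncomputable def resR {B : Finset (Fin 3)} (hB : Good B) : R k →+* MvPowerSeries (Fin 3) k :=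
  IsLocalization.lift (M := (M k).primeCompl) (S := R k) (g := resA k hB) (isUnit_resA k hB)

lemma resR_algebraMap {B : Finset (Fin 3)} (hB : Good B) (a : A k) :
    resR k hB (algebraMap (A k) (R k) a) = resA k hB a := by
  simp [resR]

/-- the ideal of the power series of order at least `n` -/
noncomputable def ordIdeal (n : ℕ) : Ideal (MvPowerSeries (Fin 3) k) where
  carrier := {f | (n : ℕ∞) ≤ f.order}
  add_mem' {a b} ha hb := le_trans (le_min ha hb) MvPowerSeries.min_order_le_add
  zero_mem' := by simp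
  smul_mem' c f hf := by
    change (n : ℕ∞) ≤ (c * f).order
    rw [MvPowerSeries.order_mul]
    exact le_trans hf le_add_self

lemma mem_ordIdeal {n : ℕ} {f : MvPowerSeries (Fin 3) k} :
    f ∈ ordIdeal k n ↔ (n : ℕ∞) ≤ f.order := Iff.rfl

lemma maximalIdeal_pow (n : ℕ) :
    IsLocalRing.maximalIdeal (R k) ^ n = (M k ^ n).map (algebraMap (A k) (R k)) := by
  rw [Ideal.map_pow, IsLocalization.AtPrime.map_eq_maximalIdeal (M k) (R k)]

lemma resR_mem_ordIdeal {B : Finset (Fin 3)} (hB : Good B) {n : ℕ} {r : R k}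
    (hr : r ∈ IsLocalRing.maximalIdeal (R k) ^ n) : resR k hB r ∈ ordIdeal k n := by
  rw [maximalIdeal_pow] at hr
  have hle : (M k ^ n).map (algebraMap (A k) (R k)) ≤ (ordIdeal k n).comap (resR k hB) := by
    rw [Ideal.map_le_iff_le_comap]
    intro a ha
    obtain ⟨f, rfl⟩ := Ideal.Quotient.mk_surjective a
    rw [Ideal.mem_comap, Ideal.mem_comap, resR_algebraMap, resA_mk, mem_ordIdeal]
    refine MvPowerSeries.nat_le_order ?_
    intro x hx
    rw [coeff_resP]
    split_ifs with h
    · refine (mk_mem_M_pow_iff k n f).mp ha x ⟨hx, ?_⟩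
      rcases hB with h2 | ⟨h0, h1⟩
      · exact Or.inl (h 2 h2)
      · exact Or.inr ⟨h 0 h0, h 1 h1⟩
    · rfl
  exact hle hr

lemma good01 : Good {0, 1} := Or.inl (by decide)
lemma good2 : Good {2} := Or.inr (by decide)
lemma good0 : Good {0} := Or.inl (by decide)

/-- membership in a power of the maximal ideal is read off from the two orders -/
lemma mem_maximalIdeal_pow {n : ℕ} {r : R k} (h1 : resR k good01 r ∈ ordIdeal k n)
    (h2 : resR k good2 r ∈ ordIdeal k n) : r ∈ IsLocalRing.maximalIdeal (R k) ^ n := by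
  obtain ⟨a, s, rfl⟩ := IsLocalization.exists_mk'_eq (M k).primeCompl r
  rw [maximalIdeal_pow, IsLocalization.mk'_mem_iff]
  refine Ideal.mem_map_of_mem _ ?_
  have hspec : ∀ {B : Finset (Fin 3)} (hB : Good B),
      resR k hB (IsLocalization.mk' (R k) a s) ∈ ordIdeal k n → resA k hB a ∈ ordIdeal k n := by
    intro B hB h
    have := IsLocalization.mk'_spec (R k) a s
    have h' := congrArg (resR k hB) this
    rw [map_mul, resR_algebraMap, resR_algebraMap] at h'
    rw [← h']
    exact Ideal.mul_mem_right _ _ h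
  have k1 := hspec good01 h1
  have k2 := hspec good2 h2
  obtain ⟨f, rfl⟩ := Ideal.Quotient.mk_surjective a
  rw [mk_mem_M_pow_iff]
  rw [resA_mk, mem_ordIdeal] at k1 k2
  intro x hx
  have hx1 : ((x.degree : ℕ) : ℕ∞) < n := by exact_mod_cast hx.1
  rcases hx.2 with h | ⟨h0, h1⟩
  · have := MvPowerSeries.coeff_of_lt_order (lt_of_lt_of_le hx1 k1)
    rw [coeff_resP, if_pos] at this
    · exact this
    · intro i hi
      fin_cases i
      · exact absurd (by decide) hi
      · exact absurd (by decide) hi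
      · exact h
  · have := MvPowerSeries.coeff_of_lt_order (lt_of_lt_of_le hx1 k2)
    rw [coeff_resP, if_pos] at this
    · exact this
    · intro i hi
      fin_cases i
      · exact h0
      · exact h1
      · exact absurd (by decide) hi

/-- the powers of the maximal ideal are integrally closed: power series version -/
lemma order_of_integral {B : Finset (Fin 3)} (hB : Good B) (n : ℕ) (r : R k) (K : ℕ) (hK : 0 < K)
    (a : ℕ → R k) (ha : ∀ j, a j ∈ (IsLocalRing.maximalIdeal (R k) ^ n) ^ j)
    (h : r ^ K + ∑ j ∈ Finset.range K, a (K - j) * r ^ j = 0) :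
    resR k hB r ∈ ordIdeal k n := by
  by_contra hlt
  rw [mem_ordIdeal, not_le] at hlt
  obtain ⟨o, ho⟩ := ENat.ne_top_iff_exists.mp (ne_top_of_lt hlt)
  have hon : o < n := by rw [← ho] at hlt; exact_mod_cast hlt
  have hpow : ∀ j : ℕ, (resR k hB r ^ j).order = ((j * o : ℕ) : ℕ∞) := by
    intro j
    induction j with
    | zero =>
      rw [pow_zero, zero_mul, Nat.cast_zero]
      by_contra hne
      have := MvPowerSeries.order_ne_zero_iff_constCoeff_eq_zero.mp hne
      simp at this
    | succ j ih =>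
      rw [pow_succ, MvPowerSeries.order_mul, ih, ← ho]
      push_cast
      ring
  have h' := congrArg (resR k hB) h
  rw [map_add, map_pow, map_sum, map_zero] at h'
  have hsum : ∑ j ∈ Finset.range K, resR k hB (a (K - j) * r ^ j) ∈ ordIdeal k (K * o + 1) := by
    refine Ideal.sum_mem _ fun j hj => ?_
    have hjK : j < K := Finset.mem_range.mp hj
    rw [map_mul, map_pow, mem_ordIdeal, MvPowerSeries.order_mul, hpow]
    have h1 : resR k hB (a (K - j)) ∈ ordIdeal k (n * (K - j)) := by
      refine resR_mem_ordIdeal k hB ?_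
      rw [pow_mul]
      exact ha (K - j)
    rw [mem_ordIdeal] at h1
    refine le_trans ?_ (add_le_add_left h1 _)
    norm_cast
    obtain ⟨d, rfl⟩ := Nat.exists_eq_add_of_lt hjK
    have : j + d + 1 - j = d + 1 := by omega
    rw [this]
    nlinarith
  have hmem : resR k hB r ^ K ∈ ordIdeal k (K * o + 1) := by
    have : resR k hB r ^ K = - ∑ j ∈ Finset.range K, resR k hB (a (K - j) * r ^ j) :=
      eq_neg_of_add_eq_zero_left h'
    rw [this]
    exact Submodule.neg_mem _ hsum
  rw [mem_ordIdeal, hpow] at hmem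
  norm_cast at hmem
  omega

/-- the powers of the maximal ideal are integrally closed -/
theorem powersClosed : PowersClosed (IsLocalRing.maximalIdeal (R k)) := by
  intro n r K hK a ha h
  exact mem_maximalIdeal_pow k (order_of_integral k good01 n r K hK a ha h)
    (order_of_integral k good2 n r K hK a ha h)

/-- the coordinate functions -/
noncomputable def coord (i : Fin 3) : R k :=
  algebraMap (A k) (R k) (Ideal.Quotient.mk (J k) (X i))

lemma maximalIdeal_eq_span :
    IsLocalRing.maximalIdeal (R k) = Ideal.span {coord k 0, coord k 1, coord k 2} := by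
  have h1 : (M k).map (algebraMap (A k) (R k)) = IsLocalRing.maximalIdeal (R k) :=
    IsLocalization.AtPrime.map_eq_maximalIdeal (M k) (R k)
  have h2 : M k = (idealOfVars (Fin 3) k).map (Ideal.Quotient.mk (J k)) := rfl
  rw [← h1, h2, Ideal.map_map, Ideal.map_span]
  congr 1
  ext w
  constructor
  · rintro ⟨_, ⟨i, rfl⟩, rfl⟩
    fin_cases i
    · exact Or.inl rfl
    · exact Or.inr (Or.inl rfl)
    · exact Or.inr (Or.inr rfl)
  · rintro (rfl | rfl | rfl)
    · exact ⟨X 0, ⟨0, rfl⟩, rfl⟩
    · exact ⟨X 1, ⟨1, rfl⟩, rfl⟩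
    · exact ⟨X 2, ⟨2, rfl⟩, rfl⟩

lemma coord_zero_mul_two : coord k 0 * coord k 2 = 0 := by
  rw [coord, coord, ← map_mul, ← map_mul]
  have : (X 0 * X 2 : MvPolynomial (Fin 3) k) ∈ J k := by
    refine Ideal.subset_span ⟨_, Or.inl rfl, ?_⟩
    simp [X, monomial_mul]
  rw [Ideal.Quotient.eq_zero_iff_mem.mpr this, map_zero]

lemma resR_coord {B : Finset (Fin 3)} (hB : Good B) (i : Fin 3) :
    resR k hB (coord k i) = if i ∈ B then MvPowerSeries.X i else 0 := by
  rw [coord, resR_algebraMap, resA_mk, resP]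
  simp only [AlgHom.toRingHom_eq_coe, RingHom.coe_comp, RingHom.coe_coe, Function.comp_apply]
  rw [res, aeval_X]
  split_ifs <;> simp

lemma ker_resR_le {B B' : Finset (Fin 3)} (hB : Good B) (hB' : Good B') (h : B' ⊆ B) :
    RingHom.ker (resR k hB) ≤ RingHom.ker (resR k hB') := by
  intro r hr
  rw [RingHom.mem_ker] at hr ⊢
  obtain ⟨a, s, rfl⟩ := IsLocalization.exists_mk'_eq (M k).primeCompl r
  have hspec : ∀ {C : Finset (Fin 3)} (hC : Good C),
      resR k hC (IsLocalization.mk' (R k) a s) = 0 ↔ resA k hC a = 0 := by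
    intro C hC
    have := IsLocalization.mk'_spec (R k) a s
    have h' := congrArg (resR k hC) this
    rw [map_mul, resR_algebraMap, resR_algebraMap] at h'
    rw [← h']
    constructor
    · intro h; rw [h, zero_mul]
    · intro h
      exact (mul_eq_zero.mp h).resolve_right (isUnit_resA k hC s).ne_zero
  rw [hspec] at hr ⊢
  obtain ⟨f, rfl⟩ := Ideal.Quotient.mk_surjective a
  rw [resA_mk] at hr ⊢
  ext x
  have hx := congrArg (MvPowerSeries.coeff x) hr
  rw [coeff_resP] at hx ⊢
  rw [map_zero] at hx ⊢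
  split_ifs with h1
  · rw [if_pos (fun i hi => h1 i (fun hi' => hi (h hi')))] at hx
    exact hx
  · rfl

instance : IsDomain (MvPowerSeries (Fin 3) k) := NoZeroDivisors.to_isDomain _

lemma X_ne_zero' (i : Fin 3) : (MvPowerSeries.X i : MvPowerSeries (Fin 3) k) ≠ 0 := by
  intro h
  have := congrArg (MvPowerSeries.coeff (Finsupp.single i 1)) h
  rw [MvPowerSeries.coeff_X, if_pos rfl, map_zero] at this
  exact one_ne_zero this

theorem ringKrullDim_eq : ringKrullDim (R k) = 2 := by
  refine le_antisymm (ringKrullDim_le_two (maximalIdeal_eq_span k) (coord_zero_mul_two k)) ?_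
  have p1 : (RingHom.ker (resR k good01)).IsPrime := RingHom.ker_isPrime _
  have p2 : (RingHom.ker (resR k good0)).IsPrime := RingHom.ker_isPrime _
  refine two_le_ringKrullDim (p := ⟨_, p1⟩) (q := ⟨_, p2⟩)
    (r := ⟨IsLocalRing.maximalIdeal (R k), inferInstance⟩) ?_ ?_
  · rw [← PrimeSpectrum.asIdeal_lt_asIdeal]
    refine lt_of_le_of_ne (ker_resR_le k good01 good0 (by decide)) ?_
    intro h
    have h1 : coord k 1 ∈ RingHom.ker (resR k good0) := by
      rw [RingHom.mem_ker, resR_coord, if_neg (by decide)]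
    simp only at h
    rw [← h, RingHom.mem_ker, resR_coord, if_pos (by decide)] at h1
    exact X_ne_zero' k _ h1
  · rw [← PrimeSpectrum.asIdeal_lt_asIdeal]
    refine lt_of_le_of_ne (IsLocalRing.le_maximalIdeal p2.ne_top) ?_
    intro h
    have h1 : coord k 0 ∈ IsLocalRing.maximalIdeal (R k) := by
      rw [maximalIdeal_eq_span]
      exact Ideal.subset_span (Or.inl rfl)
    simp only at h
    rw [← h, RingHom.mem_ker, resR_coord, if_pos (by decide)] at h1
    exact X_ne_zero' k _ h1

/-! ### The length of `R / m ^ n` -/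

/-- the exponents in the plane -/
noncomputable def T1 (n : ℕ) : Finset (Fin 3 →₀ ℕ) :=
  ((Finset.range n).sigma (fun i => Finset.HasAntidiagonal.antidiagonal i)).image
    (fun p => Finsupp.single 0 p.2.1 + Finsupp.single 1 p.2.2)

/-- the exponents on the line -/
noncomputable def T2 (n : ℕ) : Finset (Fin 3 →₀ ℕ) :=
  (Finset.Ico 1 n).image (fun c => Finsupp.single 2 c)

lemma degree_three (x : Fin 3 →₀ ℕ) : x.degree = x 0 + x 1 + x 2 := by
  rw [Finsupp.degree_eq_sum, Fin.sum_univ_three]

lemma mem_T1 (n : ℕ) (x : Fin 3 →₀ ℕ) : x ∈ T1 n ↔ x.degree < n ∧ x 2 = 0 := by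
  rw [T1, Finset.mem_image]
  constructor
  · rintro ⟨⟨i, a, b⟩, h, rfl⟩
    simp only [Finset.mem_sigma, Finset.mem_range, Finset.HasAntidiagonal.mem_antidiagonal] at h
    rw [degree_three]
    simp
    omega
  · rintro ⟨h1, h2⟩
    rw [degree_three] at h1
    refine ⟨⟨x 0 + x 1, x 0, x 1⟩, ?_, ?_⟩
    · simp only [Finset.mem_sigma, Finset.mem_range, Finset.HasAntidiagonal.mem_antidiagonal, and_true]
      omega
    · ext i
      fin_cases i <;> simp [h2]

lemma mem_T2 (n : ℕ) (x : Fin 3 →₀ ℕ) :
    x ∈ T2 n ↔ x.degree < n ∧ x 0 = 0 ∧ x 1 = 0 ∧ x 2 ≠ 0 := by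
  rw [T2, Finset.mem_image]
  constructor
  · rintro ⟨c, h, rfl⟩
    rw [Finset.mem_Ico] at h
    rw [degree_three]
    simp
    omega
  · rintro ⟨h1, h2, h3, h4⟩
    rw [degree_three] at h1
    refine ⟨x 2, ?_, ?_⟩
    · rw [Finset.mem_Ico]
      omega
    · ext i
      fin_cases i <;> simp [h2, h3]

lemma T_eq (n : ℕ) : T n = ((T1 n ∪ T2 n : Finset (Fin 3 →₀ ℕ)) : Set (Fin 3 →₀ ℕ)) := by
  ext x
  rw [Finset.coe_union, Set.mem_union, Finset.mem_coe, Finset.mem_coe, mem_T1, mem_T2]
  constructor
  · rintro ⟨h1, h2⟩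
    by_cases h : x 2 = 0
    · exact Or.inl ⟨h1, h⟩
    · rcases h2 with h2 | ⟨h2, h3⟩
      · exact absurd h2 h
      · exact Or.inr ⟨h1, h2, h3, h⟩
  · rintro (⟨h1, h2⟩ | ⟨h1, h2, h3, h4⟩)
    · exact ⟨h1, Or.inl h2⟩
    · exact ⟨h1, Or.inr ⟨h2, h3⟩⟩

lemma card_T1 (n : ℕ) : (T1 n).card = (n + 1).choose 2 := by
  rw [T1, Finset.card_image_of_injOn, Finset.card_sigma]
  · simp only [Finset.Nat.card_antidiagonal]
    induction n with
    | zero => simp
    | succ n ih =>
      rw [Finset.sum_range_succ, ih, Nat.choose_succ_succ' (n + 1) 1, Nat.choose_one_right]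
      ring
  · rintro ⟨i, a, b⟩ h ⟨i', a', b'⟩ h' heq
    simp only [Finset.coe_sigma, Set.mem_sigma_iff, Finset.mem_coe, Finset.mem_range,
      Finset.HasAntidiagonal.mem_antidiagonal] at h h'
    have h0 := DFunLike.congr_fun heq 0
    have h1 := DFunLike.congr_fun heq 1
    simp at h0 h1
    obtain ⟨-, rfl⟩ := h
    obtain ⟨-, rfl⟩ := h'
    subst h0 h1
    rfl

lemma card_T2 (n : ℕ) : (T2 n).card = n - 1 := by
  rw [T2, Finset.card_image_of_injective, Nat.card_Ico]
  exact Finsupp.single_injective 2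

lemma card_T (n : ℕ) : (T1 n ∪ T2 n).card = (n + 1).choose 2 + (n - 1) := by
  rw [Finset.card_union_of_disjoint, card_T1, card_T2]
  rw [Finset.disjoint_left]
  intro x h1 h2
  exact ((mem_T2 n x).mp h2).2.2.2 ((mem_T1 n x).mp h1).2

/-- the residue map from polynomials to germs modulo a power of the maximal ideal -/
noncomputable def toQuot (n : ℕ) :
    MvPolynomial (Fin 3) k →ₐ[k] (R k ⧸ IsLocalRing.maximalIdeal (R k) ^ n) :=
  (Ideal.Quotient.mkₐ k (IsLocalRing.maximalIdeal (R k) ^ n)).comp
    ((IsScalarTower.toAlgHom k (A k) (R k)).comp (Ideal.Quotient.mkₐ k (J k)))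

lemma toQuot_apply (n : ℕ) (f : MvPolynomial (Fin 3) k) :
    toQuot k n f = Ideal.Quotient.mk _ (algebraMap (A k) (R k) (Ideal.Quotient.mk (J k) f)) := rfl

lemma toQuot_surjective (n : ℕ) : Function.Surjective (toQuot k n) := by
  intro q
  obtain ⟨a', ha⟩ := (IsLocalization.AtPrime.equivQuotMaximalIdealPow (M k) (R k) n).surjective q
  obtain ⟨a, rfl⟩ := Ideal.Quotient.mk_surjective a'
  obtain ⟨f, rfl⟩ := Ideal.Quotient.mk_surjective a
  exact ⟨f, ha⟩

lemma toQuot_eq_zero_iff (n : ℕ) (f : MvPolynomial (Fin 3) k) :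
    toQuot k n f = 0 ↔ ∀ x ∈ T n, f.coeff x = 0 := by
  rw [toQuot_apply, Ideal.Quotient.eq_zero_iff_mem, ← mk_mem_M_pow_iff]
  have h := IsLocalization.AtPrime.under_maximalIdeal_pow (M k) (R k) n
  constructor
  · intro hf
    rw [← h]
    exact hf
  · intro hf
    rw [← h] at hf
    exact hf

/-- the coefficients with exponents in `T n` -/
noncomputable def coeffs (n : ℕ) :
    MvPolynomial (Fin 3) k →ₗ[k] ((T1 n ∪ T2 n : Finset (Fin 3 →₀ ℕ)) → k) :=
  LinearMap.pi fun x => lcoeff k x.1

lemma coeffs_surjective (n : ℕ) : Function.Surjective (coeffs k n) := by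
  classical
  intro c
  refine ⟨∑ y : (T1 n ∪ T2 n : Finset (Fin 3 →₀ ℕ)), monomial y.1 (c y), ?_⟩
  ext x
  simp only [coeffs, LinearMap.pi_apply, lcoeff_apply, coeff_sum, coeff_monomial]
  rw [Finset.sum_eq_single x]
  · simp
  · intro y _ hy
    rw [if_neg]
    intro h
    exact hy (Subtype.ext h)
  · intro h
    exact absurd (Finset.mem_univ _) h

lemma ker_eq (n : ℕ) : LinearMap.ker (toQuot k n).toLinearMap = LinearMap.ker (coeffs k n) := by
  ext f
  rw [LinearMap.mem_ker, LinearMap.mem_ker, AlgHom.toLinearMap_apply, toQuot_eq_zero_iff]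
  constructor
  · intro h
    ext x
    have hx : x.1 ∈ T n := by rw [T_eq]; exact x.2
    exact h x.1 hx
  · intro h x hx
    rw [T_eq] at hx
    exact congrFun h ⟨x, hx⟩

lemma length_field (n : ℕ) :
    Module.length k (R k ⧸ IsLocalRing.maximalIdeal (R k) ^ n) =
      (((n + 1).choose 2 + (n - 1) : ℕ) : ℕ∞) := by
  have e1 := LinearMap.quotKerEquivOfSurjective (toQuot k n).toLinearMap (toQuot_surjective k n)
  have e2 := LinearMap.quotKerEquivOfSurjective (coeffs k n) (coeffs_surjective k n)
  have e3 := Submodule.quotEquivOfEq _ _ (ker_eq k n)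
  rw [(e1.symm.trans (e3.trans e2)).length_eq, Module.length_eq_finrank, Module.finrank_fintype_fun_eq_card,
    Fintype.card_coe, card_T]

lemma length_residueField : Module.length k (IsLocalRing.ResidueField (R k)) = 1 := by
  have h := length_field k 1
  have e : (R k ⧸ IsLocalRing.maximalIdeal (R k) ^ 1) ≃ₗ[k] IsLocalRing.ResidueField (R k) :=
    (Ideal.quotientEquivAlgOfEq k (pow_one (IsLocalRing.maximalIdeal (R k)))).toLinearEquiv
  rw [e.length_eq] at h
  rw [h]
  norm_num

theorem length_quot (n : ℕ) :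
    Module.length (R k) (R k ⧸ IsLocalRing.maximalIdeal (R k) ^ n) =
      (((n + 1).choose 2 + (n - 1) : ℕ) : ℕ∞) := by
  rw [length_eq (length_residueField k), length_field]

end Pool.Agent.H195_normal
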